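import Pool.Agent.PLX.StmtsA

/-! Squad PLX, row LIO. -/

set_option autoImplicit false

namespace Pool.Agent.PLX.H10

open Module Polynomial

theorem alg_one_le {e m : ℕ} {w : ℝ} (h : Alg e m w) : 1 ≤ m := by
  obtain ⟨p, hp, -, hc, -⟩ := h
  have h1 : p.leadingCoeff ≠ 0 := Polynomial.leadingCoeff_ne_zero.2 hp
  have h2 := hc p.natDegree
  have h3 : 1 ≤ |p.coeff p.natDegree| := Int.one_le_abs h1
  exact_mod_cast h3.trans h2

theorem alg_abs {e m : ℕ} {w : ℝ} (h : Alg e m w) : |w| < 1 + m := by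
  obtain ⟨p, hp, -, hc, hw⟩ := h
  have hq0 : p.map (Int.castRingHom ℝ) ≠ 0 :=
    (Polynomial.map_ne_zero_iff (RingHom.injective_int _)).2 hp
  have hr : (p.map (Int.castRingHom ℝ)).IsRoot w := by
    rw [Polynomial.IsRoot, Polynomial.eval_map]
    rw [Polynomial.aeval_def] at hw
    exact hw
  have h1 := hr.norm_lt_cauchyBound hq0
  have h2 : (p.map (Int.castRingHom ℝ)).cauchyBound ≤ (m : NNReal) + 1 := by
    rw [Polynomial.cauchyBound]
    refine add_le_add ?_ le_rfl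
    have h3 : (Finset.range (p.map (Int.castRingHom ℝ)).natDegree).sup
        (fun i => ‖(p.map (Int.castRingHom ℝ)).coeff i‖₊) ≤ (m : NNReal) := by
      refine Finset.sup_le fun i _ => ?_
      rw [← NNReal.coe_le_coe, coe_nnnorm, Polynomial.coeff_map, Real.norm_eq_abs]
      have h7 := (Int.cast_le (R := ℝ)).2 (hc i)
      rw [Int.cast_abs, Int.cast_natCast] at h7
      rw [eq_intCast, NNReal.coe_natCast]
      exact h7
    have h4 : (1 : NNReal) ≤ ‖(p.map (Int.castRingHom ℝ)).leadingCoeff‖₊ := by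
      rw [← NNReal.coe_le_coe, coe_nnnorm, Polynomial.leadingCoeff_map_of_injective
        (RingHom.injective_int _), Real.norm_eq_abs, eq_intCast]
      have h5 : 1 ≤ |p.leadingCoeff| := Int.one_le_abs (Polynomial.leadingCoeff_ne_zero.2 hp)
      have h7 := (Int.cast_le (R := ℝ)).2 h5
      rw [Int.cast_abs, Int.cast_one] at h7
      rw [NNReal.coe_one]
      exact h7
    exact (div_le_self zero_le h4).trans h3
  have h6 : (‖w‖₊ : ℝ) < (((m : NNReal) + 1 : NNReal) : ℝ) := NNReal.coe_lt_coe.2 (h1.trans_le h2)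
  rw [coe_nnnorm, Real.norm_eq_abs] at h6
  push_cast at h6
  linarith

theorem lio (hlib : LibStmt) : LioStmt := by
  classical
  intro F k e m N μ hfd hk hμ hN
  have hk1 : 1 ≤ k := by
    rw [← hk]
    exact Module.finrank_pos
  have hm : 1 ≤ m := alg_one_le (hμ 0).2
  have hN0 : 0 < N := lt_of_le_of_lt (Nat.zero_le _) hN
  have hNr : (0 : ℝ) < N := by exact_mod_cast hN0
  have hmr : (1 : ℝ) ≤ m := by exact_mod_cast hm
  -- the sums
  let S : (Fin (k + 1) → Fin (N + 1)) → ℝ := fun n => ∑ i, ((n i : ℕ) : ℝ) * μ i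
  let R : ℝ := (k + 1) * N * (1 + m)
  have hR : 0 < R := by
    show 0 < ((k : ℝ) + 1) * N * (1 + m)
    positivity
  have hS : ∀ n, |S n| < R := by
    intro n
    calc |S n| ≤ ∑ i, |((n i : ℕ) : ℝ) * μ i| := Finset.abs_sum_le_sum_abs _ _
      _ < ∑ _i : Fin (k + 1), (N : ℝ) * (1 + m) := by
        refine Finset.sum_lt_sum_of_nonempty Finset.univ_nonempty fun i _ => ?_
        rw [abs_mul, abs_of_nonneg (Nat.cast_nonneg _)]
        have h1 : ((n i : ℕ) : ℝ) ≤ N := by exact_mod_cast Nat.lt_succ_iff.1 (n i).2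
        calc ((n i : ℕ) : ℝ) * |μ i| ≤ N * |μ i| := mul_le_mul_of_nonneg_right h1 (abs_nonneg _)
          _ < N * (1 + m) := mul_lt_mul_of_pos_left (alg_abs (hμ i).2) hNr
      _ = R := by
        rw [Finset.sum_const, Finset.card_univ, Fintype.card_fin, nsmul_eq_mul]
        push_cast
        ring
  have hP : (0 : ℝ) < (N : ℝ) ^ (k + 1) := pow_pos hNr _
  -- the cell
  let g : (Fin (k + 1) → Fin (N + 1)) → ℝ := fun n => (S n + R) / (2 * R) * (N : ℝ) ^ (k + 1)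
  have hg0 : ∀ n, 0 ≤ g n := by
    intro n
    have := (abs_lt.1 (hS n)).1
    refine mul_nonneg (div_nonneg (by linarith) (by linarith)) hP.le
  have hg1 : ∀ n, g n < (N : ℝ) ^ (k + 1) := by
    intro n
    have := (abs_lt.1 (hS n)).2
    have h2 : (S n + R) / (2 * R) < 1 := by
      rw [div_lt_one (by linarith)]
      linarith
    calc g n < 1 * (N : ℝ) ^ (k + 1) := mul_lt_mul_of_pos_right h2 hP
      _ = _ := one_mul _
  obtain ⟨a, -, b, -, hab, hfl⟩ := Finset.exists_ne_map_eq_of_card_lt_of_maps_to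
    (s := (Finset.univ : Finset (Fin (k + 1) → Fin (N + 1)))) (t := Finset.range (N ^ (k + 1)))
    (f := fun n => ⌊g n⌋₊) (by
      rw [Finset.card_range, Finset.card_univ, Fintype.card_fun, Fintype.card_fin,
        Fintype.card_fin]
      exact Nat.pow_lt_pow_left (Nat.lt_succ_self _) (Nat.succ_ne_zero _)) (by
      intro n _
      rw [Finset.coe_range, Set.mem_Iio, Nat.floor_lt (hg0 n)]
      push_cast
      exact hg1 n)
  have hclose : |g a - g b| < 1 := by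
    have h1 := Nat.floor_le (hg0 a)
    have h2 := Nat.lt_floor_add_one (g a)
    have h3 := Nat.floor_le (hg0 b)
    have h4 := Nat.lt_floor_add_one (g b)
    have hfl' : ⌊g a⌋₊ = ⌊g b⌋₊ := hfl
    rw [hfl'] at h1 h2
    rw [abs_lt]
    constructor <;> linarith
  have hdiff : |S a - S b| * (N : ℝ) ^ (k + 1) < 2 * R := by
    have h1 : g a - g b = (S a - S b) * (N : ℝ) ^ (k + 1) / (2 * R) := by
      show (S a + R) / (2 * R) * (N : ℝ) ^ (k + 1) - (S b + R) / (2 * R) * (N : ℝ) ^ (k + 1) = _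
      ring
    rw [h1, abs_div, abs_mul, abs_of_pos hP, abs_of_pos (by linarith : 0 < 2 * R),
      div_lt_one (by linarith)] at hclose
    exact hclose
  let n : Fin (k + 1) → ℤ := fun i => ((a i : ℕ) : ℤ) - ((b i : ℕ) : ℤ)
  have hsum : ∑ i, (n i : ℝ) * μ i = S a - S b := by
    show ∑ i, (((((a i : ℕ) : ℤ) - ((b i : ℕ) : ℤ) : ℤ)) : ℝ) * μ i
      = ∑ i, ((a i : ℕ) : ℝ) * μ i - ∑ i, ((b i : ℕ) : ℝ) * μ i
    rw [← Finset.sum_sub_distrib]
    refine Finset.sum_congr rfl fun i _ => ?_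
    push_cast
    ring
  have hnN : ∀ i, |n i| ≤ (N : ℤ) := by
    intro i
    have h1 := Nat.lt_succ_iff.1 (a i).2
    have h2 := Nat.lt_succ_iff.1 (b i).2
    show |((a i : ℕ) : ℤ) - ((b i : ℕ) : ℤ)| ≤ (N : ℤ)
    rw [abs_le]
    constructor <;> omega
  refine ⟨n, ?_, hnN, ?_⟩
  · intro h0
    apply hab
    funext i
    have h1 : n i = 0 := by rw [h0]; rfl
    have h2 : ((a i : ℕ) : ℤ) - ((b i : ℕ) : ℤ) = 0 := h1
    apply Fin.ext
    omega
  · by_contra hne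
    have hL := hlib F k e m N μ n hfd hk hμ hnN hne
    rw [hsum] at hL
    obtain ⟨j, rfl⟩ : ∃ j, k = j + 1 := ⟨k - 1, by omega⟩
    rw [Nat.add_sub_cancel] at hL
    set X : ℝ := (((j + 1 : ℕ) : ℝ) + 1) * (1 + m) * (m : ℝ) ^ (j + 1 + 1) with hX
    have hX0 : 0 < X := by positivity
    have hNX : 2 * X ^ (j + 1) < N := by
      rw [hX]
      exact_mod_cast hN
    -- the contradiction
    have h1 : |S a - S b| * (m : ℝ) ^ (j + 1 + 1) * ((((j + 1 : ℕ) : ℝ) + 1) * N * (1 + m)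
        * (m : ℝ) ^ (j + 1 + 1)) ^ j = |S a - S b| * (m : ℝ) ^ (j + 1 + 1) * (X ^ j * (N : ℝ) ^ j) := by
      rw [hX, ← mul_pow]
      ring
    rw [h1] at hL
    have h2 : (N : ℝ) ^ (j + 1 + 1) ≤ |S a - S b| * (N : ℝ) ^ (j + 1 + 1) *
        ((m : ℝ) ^ (j + 1 + 1) * (X ^ j * (N : ℝ) ^ j)) := by
      calc (N : ℝ) ^ (j + 1 + 1) = (N : ℝ) ^ (j + 1 + 1) * 1 := (mul_one _).symm
        _ ≤ (N : ℝ) ^ (j + 1 + 1) * (|S a - S b| * (m : ℝ) ^ (j + 1 + 1) * (X ^ j * (N : ℝ) ^ j)) :=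
          mul_le_mul_of_nonneg_left hL hP.le
        _ = _ := by ring
    have h3 : |S a - S b| * (N : ℝ) ^ (j + 1 + 1) *
        ((m : ℝ) ^ (j + 1 + 1) * (X ^ j * (N : ℝ) ^ j)) < 2 * R *
        ((m : ℝ) ^ (j + 1 + 1) * (X ^ j * (N : ℝ) ^ j)) := by
      refine mul_lt_mul_of_pos_right hdiff ?_
      positivity
    have h4 : 2 * R * ((m : ℝ) ^ (j + 1 + 1) * (X ^ j * (N : ℝ) ^ j))
        = 2 * X ^ (j + 1) * (N : ℝ) ^ (j + 1) := by
      show 2 * ((((j + 1 : ℕ) : ℝ) + 1) * N * (1 + m)) * ((m : ℝ) ^ (j + 1 + 1) *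
        (X ^ j * (N : ℝ) ^ j)) = _
      rw [pow_succ X j, pow_succ (N : ℝ) j]
      conv_rhs => rw [hX]
      rw [hX]
      ring
    have h5 : 2 * X ^ (j + 1) * (N : ℝ) ^ (j + 1) < N * (N : ℝ) ^ (j + 1) :=
      mul_lt_mul_of_pos_right hNX (pow_pos hNr _)
    have h6 : (N : ℝ) ^ (j + 1 + 1) = N * (N : ℝ) ^ (j + 1) := by ring
    linarith

end Pool.Agent.PLX.H10
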